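import Pool.Agent.ISO.StmtsM

set_option autoImplicit false

namespace Pool.Agent.ISO.H1

open MvPolynomial Pool.Agent.Helper6_Mono Pool.Agent.ISO

section defs

variable {k : Type} [Field k] {σ : Type} {f f1 : MvPolynomial σ k} {p : σ → k}
  {hp : eval p f = 0}

/-- a point of `mv U` is a point of `U` -/
def dn {U : GSch f1} {S : Type} [CommRing S] [Algebra k S] (x : (mv f p hp U).Pt S) : U.Pt S :=
  ⟨x.crd, fun e he => x.eq e (Or.inl he)⟩

theorem dn_pt {U : GSch f1} {S : Type} [CommRing S] [Algebra k S] (x : (mv f p hp U).Pt S) (i : σ) :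
    ev (dn x).crd (U.pt i) = 0 := x.eq _ (Or.inr ⟨i, rfl⟩)

/-- a point of `U` over `0` is a point of `mv U` -/
def up {U : GSch f1} {S : Type} [CommRing S] [Algebra k S] (x : U.Pt S)
    (h : ∀ i, ev x.crd (U.pt i) = 0) : (mv f p hp U).Pt S :=
  ⟨x.crd, fun e he => by
    rcases he with he | ⟨i, rfl⟩
    · exact x.eq e he
    · exact h i⟩

theorem pt_ext {g : MvPolynomial σ k} {U : GSch g} {S : Type} [CommRing S] [Algebra k S]
    {x y : U.Pt S} (h : x.crd = y.crd) : x = y := by
  cases x
  cases y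
  cases h
  rfl

end defs

theorem mvi : MviStmt := by
  intro k _ σ f f1 p hp V W ⟨F, hnat, heq, hov⟩
  have h0 : ∀ (S : Type) [CommRing S] [Algebra k S] (x : (mv f p hp V).Pt S) (i : σ),
      ev (F.map S (dn x)).crd (W.pt i) = 0 := by
    intro S _ _ x i
    rw [hov S (dn x) i]
    exact dn_pt x i
  refine ⟨⟨fun S _ _ x => up (F.map S (dn x)) (h0 S x), ?_⟩, ?_, ?_, ?_⟩
  · intro S _ _
    constructor
    · intro x y hxy
      have h0 : (up (hp := hp) (F.map S (dn x)) (h0 S x)).crd =
          (up (hp := hp) (F.map S (dn y)) (h0 S y)).crd := congrArg (fun z => z.crd) hxy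
      have h1 : (F.map S (dn x)).crd = (F.map S (dn y)).crd := h0
      have h2 : dn x = dn y := (F.bij S).1 (pt_ext h1)
      have h3 : (dn x).crd = (dn y).crd := congrArg (fun z => z.crd) h2
      exact pt_ext h3
    · intro y
      obtain ⟨x, hx⟩ := (F.bij S).2 (dn y)
      have h1 : ∀ i, ev x.crd (V.pt i) = 0 := by
        intro i
        rw [← hov S x i, hx]
        exact dn_pt y i
      refine ⟨up x h1, ?_⟩
      apply pt_ext
      show (F.map S (dn (up x h1))).crd = y.crd
      have h2 : dn (up x h1 : (mv f p hp V).Pt S) = x := pt_ext rfl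
      rw [h2, hx]
      rfl
  · intro S S' _ _ _ _ φ x x' h
    exact hnat S S' φ (dn x) (dn x') h
  · intro S _ _ c x x' h
    exact heq S c (dn x) (dn x') h
  · intro S _ _ x i
    show ev _ (C (p i)) = ev _ (C (p i))
    unfold ev
    rw [aeval_C, aeval_C]

end Pool.Agent.ISO.H1
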